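import Mathlib

set_option autoImplicit false

namespace Pool.Agent.B17

/-- a prime power `p ^ τ` (`p > 3`) dividing `(v²-1)(v⁴+v²+1)`, `v = w + 1`, divides a factor -/
theorem root_split {p τ w : ℕ} (hp : p.Prime) (hp5 : 5 ≤ p)
    (hd : p ^ τ ∣ w * ((w + 2) * ((w * w + 3 * w + 3) * (w * w + w + 1)))) :
    p ^ τ ∣ w ∨ p ^ τ ∣ w + 2 ∨ p ^ τ ∣ w * w + 3 * w + 3 ∨ p ^ τ ∣ w * w + w + 1 := by
  have hcop : ∀ x : ℕ, ¬ p ∣ x → Nat.Coprime (p ^ τ) x := fun x hx =>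
    ((Nat.Prime.coprime_iff_not_dvd hp).2 hx).pow_left _
  have hsmall : ∀ x : ℕ, 0 < x → x < 5 → ¬ p ∣ x := fun x hx hx5 h => by
    have := Nat.le_of_dvd hx h
    omega
  by_cases h1 : p ∣ w
  · have e2 : ¬ p ∣ (w + 2) := fun h => by
      exact hsmall 2 (by norm_num) (by norm_num) ((Nat.dvd_add_right h1).1 h)
    have e3 : ¬ p ∣ (w * w + 3 * w + 3) := fun h => by
      have h3 : p ∣ w * w + 3 * w := (h1.mul_left w).add (h1.mul_left 3)
      exact hsmall 3 (by norm_num) (by norm_num) ((Nat.dvd_add_right h3).1 h)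
    have e4 : ¬ p ∣ (w * w + w + 1) := fun h => by
      have h3 : p ∣ w * w + w := (h1.mul_left w).add h1
      exact hsmall 1 (by norm_num) (by norm_num) ((Nat.dvd_add_right h3).1 h)
    left
    refine (hcop _ ?_).dvd_of_dvd_mul_right hd
    intro h
    rcases (Nat.Prime.dvd_mul hp).1 h with h | h
    · exact e2 h
    · rcases (Nat.Prime.dvd_mul hp).1 h with h | h
      · exact e3 h
      · exact e4 h
  have hd1 : p ^ τ ∣ (w + 2) * ((w * w + 3 * w + 3) * (w * w + w + 1)) :=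
    (hcop _ h1).dvd_of_dvd_mul_left hd
  by_cases h3 : p ∣ w + 2
  · have e3 : ¬ p ∣ (w * w + 3 * w + 3) := fun h => by
      have h4 : w * w + 3 * w + 3 = (w + 2) * (w + 1) + 1 := by ring
      rw [h4] at h
      exact hsmall 1 (by norm_num) (by norm_num) ((Nat.dvd_add_right (h3.mul_right _)).1 h)
    have e4 : ¬ p ∣ (w * w + w + 1) := fun h => by
      have h4 : w * w + w + 1 + (w + 2) * 1 = (w + 2) * w + 3 := by ring
      have h5 : p ∣ (w + 2) * w + 3 := h4 ▸ (h.add (h3.mul_right 1))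
      exact hsmall 3 (by norm_num) (by norm_num) ((Nat.dvd_add_right (h3.mul_right _)).1 h5)
    right; left
    refine (hcop _ ?_).dvd_of_dvd_mul_right hd1
    intro h
    rcases (Nat.Prime.dvd_mul hp).1 h with h | h
    · exact e3 h
    · exact e4 h
  have hd2 : p ^ τ ∣ (w * w + 3 * w + 3) * (w * w + w + 1) :=
    (hcop _ h3).dvd_of_dvd_mul_left hd1
  by_cases h4 : p ∣ w * w + 3 * w + 3
  · have e4 : ¬ p ∣ (w * w + w + 1) := fun h => by
      have h5 : w * w + 3 * w + 3 = (w * w + w + 1) + 2 * (w + 1) := by ring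
      rw [h5] at h4
      have h6 : p ∣ 2 * (w + 1) := (Nat.dvd_add_right h).1 h4
      rcases (Nat.Prime.dvd_mul hp).1 h6 with h7 | h7
      · exact hsmall 2 (by norm_num) (by norm_num) h7
      · have h8 : w * w + w + 1 = (w + 1) * w + 1 := by ring
        rw [h8] at h
        exact hsmall 1 (by norm_num) (by norm_num) ((Nat.dvd_add_right (h7.mul_right _)).1 h)
    right; right; left
    exact (hcop _ e4).dvd_of_dvd_mul_right hd2
  · right; right; right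
    exact (hcop _ h4).dvd_of_dvd_mul_left hd2

theorem P2a {p u : ℤ} (hp5 : 5 ≤ p) (hu3 : 3 ≤ u)
    (h : p ^ 2 ∣ ((p - 1) * u) ^ 2 + (p - 1) * u + 1) : p ≤ 3 * u := by
  have hp0 : p ≠ 0 := by omega
  have h1 : p ∣ u ^ 2 - u + 1 := by
    obtain ⟨c, hc⟩ := h
    refine ⟨p * c - (p * u ^ 2 - 2 * u ^ 2 + u), ?_⟩
    have : u ^ 2 - u + 1 = (((p - 1) * u) ^ 2 + (p - 1) * u + 1)
        - p * (p * u ^ 2 - 2 * u ^ 2 + u) := by ring
    rw [this, hc]; ring
  obtain ⟨s, hs⟩ := h1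
  have h2 : p ∣ s - u + 2 := by
    obtain ⟨c, hc⟩ := h
    have h3 : p * (s + u - 2 * u ^ 2 + p * u ^ 2) = p * (p * c) := by
      have : ((p - 1) * u) ^ 2 + (p - 1) * u + 1
          = (u ^ 2 - u + 1) + p * (u - 2 * u ^ 2 + p * u ^ 2) := by ring
      rw [this, hs] at hc
      linarith
    have h4 := mul_left_cancel₀ hp0 h3
    refine ⟨c - u ^ 2 + 2 * s, ?_⟩
    have h5 : 2 * u ^ 2 = 2 * (u - 1) + 2 * (p * s) := by linarith
    linarith
  obtain ⟨j, hj⟩ := h2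
  by_contra hcon
  push Not at hcon
  have hs0 : 0 < s := by
    by_contra h
    push Not at h
    nlinarith
  rcases lt_trichotomy j 0 with hj0 | hj0 | hj0
  · have : p * j ≤ -p := by nlinarith
    omega
  · subst hj0
    have hsu : s = u - 2 := by linarith
    rw [hsu] at hs
    nlinarith
  · have h6 : p ≤ p * j := by nlinarith
    have h7 : p + u - 2 ≤ s := by linarith
    have h8 : p * (p + u - 2) ≤ p * s := by
      apply mul_le_mul_of_nonneg_left h7 (by omega)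
    nlinarith

theorem P2b {p u : ℤ} (hp5 : 5 ≤ p) (hu3 : 3 ≤ u)
    (h : p ^ 2 ∣ ((p - 1) * u) ^ 2 - (p - 1) * u + 1) : p ≤ 3 * u := by
  have hp0 : p ≠ 0 := by omega
  have h1 : p ∣ u ^ 2 + u + 1 := by
    obtain ⟨c, hc⟩ := h
    refine ⟨p * c - (p * u ^ 2 - 2 * u ^ 2 - u), ?_⟩
    have : u ^ 2 + u + 1 = (((p - 1) * u) ^ 2 - (p - 1) * u + 1)
        - p * (p * u ^ 2 - 2 * u ^ 2 - u) := by ring
    rw [this, hc]; ring
  obtain ⟨s, hs⟩ := h1
  have h2 : p ∣ s + u + 2 := by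
    obtain ⟨c, hc⟩ := h
    have h3 : p * (s - u - 2 * u ^ 2 + p * u ^ 2) = p * (p * c) := by
      have : ((p - 1) * u) ^ 2 - (p - 1) * u + 1
          = (u ^ 2 + u + 1) + p * (- u - 2 * u ^ 2 + p * u ^ 2) := by ring
      rw [this, hs] at hc
      linarith
    have h4 := mul_left_cancel₀ hp0 h3
    refine ⟨c - u ^ 2 + 2 * s, ?_⟩
    have h5 : 2 * u ^ 2 = 2 * (- u - 1) + 2 * (p * s) := by linarith
    linarith
  obtain ⟨j, hj⟩ := h2
  by_contra hcon
  push Not at hcon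
  have hs0 : 0 < s := by
    by_contra h
    push Not at h
    nlinarith
  have hj1 : 1 ≤ j := by
    by_contra h
    push Not at h
    have h6 : j ≤ 0 := by omega
    have : p * j ≤ 0 := by nlinarith
    omega
  have h6 : p ≤ p * j := by nlinarith
  have h7 : p - u - 2 ≤ s := by linarith
  have h8 : p * (p - u - 2) ≤ p * s := mul_le_mul_of_nonneg_left h7 (by omega)
  nlinarith

theorem LA {p q τ a b u : ℕ} (hp : p.Prime) (hp5 : 5 ≤ p) (hτ : 1 ≤ τ)
    (hd : p ^ τ ∣ q ^ 4 + q ^ 2 + 1) (hτa : τ ≤ 2 * a)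
    (hg : (p - 1) * u * q ^ b + 1 = p ^ (2 * a + 1)) (huo : Odd u) (hu1 : u ≠ 1) :
    p ^ τ ≤ 16 * u ^ 4 := by
  have hu3 : 3 ≤ u := by
    obtain ⟨j, hj⟩ := huo
    omega
  obtain ⟨t, ht⟩ : ∃ t, p = t + 1 := ⟨p - 1, by omega⟩
  have hpt : p - 1 = t := by omega
  rw [hpt] at hg
  obtain ⟨w, hw⟩ : ∃ w, t * u = w + 1 := ⟨t * u - 1, by
    have : 1 ≤ t * u := Nat.mul_pos (by omega) (by omega)
    omega⟩
  have hw12 : 11 ≤ w := by
    have h4 : 4 * 3 ≤ t * u := Nat.mul_le_mul (by omega) hu3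
    omega
  have hdvd : p ^ τ ∣ w * ((w + 2) * ((w * w + 3 * w + 3) * (w * w + w + 1))) := by
    have e1 : ((q : ℤ) ^ b * (t * u)) ≡ -1 [ZMOD ((p ^ τ : ℕ) : ℤ)] := by
      apply Int.ModEq.symm
      rw [Int.modEq_iff_dvd]
      have h4 : p ^ τ ∣ p ^ (2 * a + 1) := pow_dvd_pow p (by omega)
      rw [← hg] at h4
      have h5 : ((p ^ τ : ℕ) : ℤ) ∣ ((t * u * q ^ b + 1 : ℕ) : ℤ) :=
        Int.natCast_dvd_natCast.2 h4
      have h6 : ((t * u * q ^ b + 1 : ℕ) : ℤ) = (q : ℤ) ^ b * (t * u) - -1 := by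
        push_cast
        ring
      rwa [h6] at h5
    have e2 : (q : ℤ) ^ 6 ≡ 1 [ZMOD ((p ^ τ : ℕ) : ℤ)] := by
      apply Int.ModEq.symm
      rw [Int.modEq_iff_dvd]
      have h4 : ((p ^ τ : ℕ) : ℤ) ∣ ((q ^ 4 + q ^ 2 + 1 : ℕ) : ℤ) :=
        Int.natCast_dvd_natCast.2 hd
      have h5 : (q : ℤ) ^ 6 - 1 = ((q ^ 4 + q ^ 2 + 1 : ℕ) : ℤ) * ((q : ℤ) ^ 2 - 1) := by
        push_cast
        ring
      rw [h5]
      exact h4.mul_right _
    have e3 : (((w : ℤ) + 1)) ^ 6 ≡ 1 [ZMOD ((p ^ τ : ℕ) : ℤ)] := by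
      have hwz : ((w : ℤ) + 1) = (t : ℤ) * u := by exact_mod_cast hw.symm
      rw [hwz]
      have h7 : ((q : ℤ) ^ b) ^ 6 ≡ 1 [ZMOD ((p ^ τ : ℕ) : ℤ)] := by
        have h8 := e2.pow b
        rw [one_pow, ← pow_mul, mul_comm 6 b, pow_mul] at h8
        exact h8
      have h9 : ((q : ℤ) ^ b) ^ 6 * ((t : ℤ) * u) ^ 6 ≡ 1 * ((t : ℤ) * u) ^ 6
          [ZMOD ((p ^ τ : ℕ) : ℤ)] := h7.mul_right _
      have h10 : ((q : ℤ) ^ b * ((t : ℤ) * u)) ^ 6 ≡ (-1) ^ 6
          [ZMOD ((p ^ τ : ℕ) : ℤ)] := e1.pow 6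
      rw [mul_pow] at h10
      rw [one_mul] at h9
      have h11 := h9.symm.trans h10
      norm_num at h11
      exact h11
    have h12 := (Int.modEq_iff_dvd.1 e3.symm)
    have h13 : ((w : ℤ) + 1) ^ 6 - 1
        = ((w * ((w + 2) * ((w * w + 3 * w + 3) * (w * w + w + 1))) : ℕ) : ℤ) := by
      push_cast
      ring
    rw [h13] at h12
    exact Int.natCast_dvd_natCast.1 h12
  have hwpu : w + 2 ≤ p * u := by
    have h17 : w + 2 = t * u + 1 := by omega
    rw [h17, ht]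
    nlinarith
  have hwz : ((w : ℤ) + 1) = ((p : ℤ) - 1) * u := by
    have h1 : ((w : ℤ) + 1) = (t : ℤ) * u := by exact_mod_cast hw.symm
    rw [h1, ht]; push_cast; ring
  have hu2 : u ≤ 16 * u ^ 4 := by
    have h1 : 1 ≤ u ^ 3 := Nat.one_le_pow _ _ (by omega)
    calc u = u * 1 := (mul_one u).symm
      _ ≤ u * (16 * u ^ 3) := Nat.mul_le_mul_left _ (by omega)
      _ = 16 * u ^ 4 := by ring
  have hu22 : u * u + u + 1 ≤ 16 * u ^ 4 := by
    have h1 : 1 ≤ u ^ 2 := Nat.one_le_pow _ _ (by omega)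
    have h2 : u * u + u + 1 ≤ 16 * u ^ 2 := by nlinarith
    calc u * u + u + 1 ≤ 16 * u ^ 2 := h2
      _ = 16 * (u ^ 2 * 1) := by ring
      _ ≤ 16 * (u ^ 2 * u ^ 2) := by gcongr
      _ = 16 * u ^ 4 := by ring
  -- the linear factors
  have hlin : p ^ τ ≤ p * u → 2 ≤ τ → p ^ τ ≤ 16 * u ^ 4 := by
    intro h1 h2
    have h3 : p * p ≤ p * u := by
      calc p * p = p ^ 2 := by ring
        _ ≤ p ^ τ := Nat.pow_le_pow_right hp.pos h2
        _ ≤ p * u := h1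
    have h4 : p ≤ u := Nat.le_of_mul_le_mul_left h3 hp.pos
    calc p ^ τ ≤ p * u := h1
      _ ≤ u * u := Nat.mul_le_mul_right _ h4
      _ ≤ 16 * u ^ 4 := by omega
  have hquad : p ≤ 3 * u → p ^ τ ≤ (w + 2) ^ 2 → p ^ τ ≤ 16 * u ^ 4 := by
    intro h1 h2
    calc p ^ τ ≤ (w + 2) ^ 2 := h2
      _ ≤ (p * u) ^ 2 := Nat.pow_le_pow_left hwpu 2
      _ ≤ (3 * u * u) ^ 2 := Nat.pow_le_pow_left (Nat.mul_le_mul_right _ h1) 2
      _ = 9 * u ^ 4 := by ring
      _ ≤ 16 * u ^ 4 := Nat.mul_le_mul_right _ (by norm_num)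
  have hpz5 : (5 : ℤ) ≤ p := by exact_mod_cast hp5
  have huz3 : (3 : ℤ) ≤ u := by exact_mod_cast hu3
  rcases root_split hp hp5 hdvd with h | h | h | h
  · have h1 : p ^ τ ≤ w := Nat.le_of_dvd (by omega) h
    rcases Nat.lt_or_ge τ 2 with h2 | h2
    · have h3 : τ = 1 := by omega
      subst h3
      rw [pow_one] at h ⊢
      have h4 : (p : ℤ) ∣ (u : ℤ) + 1 := by
        have h5 : (p : ℤ) ∣ (w : ℤ) := Int.natCast_dvd_natCast.2 h
        obtain ⟨c, hc⟩ := h5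
        refine ⟨u - c, ?_⟩
        have : (w : ℤ) = (p - 1) * u - 1 := by linarith
        rw [this] at hc
        linarith
      have h5 : p ∣ u + 1 := by exact_mod_cast h4
      have h6 := Nat.le_of_dvd (by omega) h5
      have h7 : u + 1 ≤ u * u + u + 1 := by nlinarith
      omega
    · exact hlin (by omega) h2
  · have h1 : p ^ τ ≤ w + 2 := Nat.le_of_dvd (by omega) h
    rcases Nat.lt_or_ge τ 2 with h2 | h2
    · have h3 : τ = 1 := by omega
      subst h3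
      rw [pow_one] at h ⊢
      have h4 : (p : ℤ) ∣ (u : ℤ) - 1 := by
        have h5 : (p : ℤ) ∣ ((w + 2 : ℕ) : ℤ) := Int.natCast_dvd_natCast.2 h
        obtain ⟨c, hc⟩ := h5
        refine ⟨u - c, ?_⟩
        have : ((w + 2 : ℕ) : ℤ) = (p - 1) * u + 1 := by push_cast; linarith
        rw [this] at hc
        linarith
      have h6 := Int.le_of_dvd (by linarith) h4
      have h7 : p ≤ u := by
        have : (p : ℤ) ≤ u := by linarith
        exact_mod_cast this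
      omega
    · exact hlin (by omega) h2
  · have h1 : p ^ τ ≤ w * w + 3 * w + 3 := Nat.le_of_dvd (by omega) h
    have hz : ((w * w + 3 * w + 3 : ℕ) : ℤ) = (((p : ℤ) - 1) * u) ^ 2 + ((p : ℤ) - 1) * u + 1 := by
      rw [← hwz]; push_cast; ring
    rcases Nat.lt_or_ge τ 2 with h2 | h2
    · have h3 : τ = 1 := by omega
      subst h3
      rw [pow_one] at h ⊢
      have h4 : (p : ℤ) ∣ (u : ℤ) * u - u + 1 := by
        have h5 : (p : ℤ) ∣ ((w * w + 3 * w + 3 : ℕ) : ℤ) := Int.natCast_dvd_natCast.2 h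
        rw [hz] at h5
        obtain ⟨c, hc⟩ := h5
        refine ⟨c - (p * u ^ 2 - 2 * u ^ 2 + u), ?_⟩
        have : (u : ℤ) * u - u + 1 = ((((p : ℤ) - 1) * u) ^ 2 + ((p : ℤ) - 1) * u + 1)
          - p * (p * u ^ 2 - 2 * u ^ 2 + u) := by ring
        rw [this, hc]; ring
      have h6 := Int.le_of_dvd (by nlinarith) h4
      have h7 : (p : ℤ) ≤ ((u * u + u + 1 : ℕ) : ℤ) := by push_cast; linarith
      have h8 : p ≤ u * u + u + 1 := by exact_mod_cast h7
      omega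
    · apply hquad
      · have h5 : ((p : ℤ)) ^ 2 ∣ (((p : ℤ) - 1) * u) ^ 2 + ((p : ℤ) - 1) * u + 1 := by
          rw [← hz]
          have h6 : p ^ 2 ∣ w * w + 3 * w + 3 := (pow_dvd_pow p h2).trans h
          exact_mod_cast Int.natCast_dvd_natCast.2 h6
        have := P2a hpz5 huz3 h5
        exact_mod_cast this
      · nlinarith
  · have h1 : p ^ τ ≤ w * w + w + 1 := Nat.le_of_dvd (by omega) h
    have hz : ((w * w + w + 1 : ℕ) : ℤ) = (((p : ℤ) - 1) * u) ^ 2 - ((p : ℤ) - 1) * u + 1 := by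
      rw [← hwz]; push_cast; ring
    rcases Nat.lt_or_ge τ 2 with h2 | h2
    · have h3 : τ = 1 := by omega
      subst h3
      rw [pow_one] at h ⊢
      have h4 : (p : ℤ) ∣ (u : ℤ) * u + u + 1 := by
        have h5 : (p : ℤ) ∣ ((w * w + w + 1 : ℕ) : ℤ) := Int.natCast_dvd_natCast.2 h
        rw [hz] at h5
        obtain ⟨c, hc⟩ := h5
        refine ⟨c - (p * u ^ 2 - 2 * u ^ 2 - u), ?_⟩
        have : (u : ℤ) * u + u + 1 = ((((p : ℤ) - 1) * u) ^ 2 - ((p : ℤ) - 1) * u + 1)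
          - p * (p * u ^ 2 - 2 * u ^ 2 - u) := by ring
        rw [this, hc]; ring
      have h5 : p ∣ u * u + u + 1 := by exact_mod_cast h4
      have h6 := Nat.le_of_dvd (by omega) h5
      omega
    · apply hquad
      · have h5 : ((p : ℤ)) ^ 2 ∣ (((p : ℤ) - 1) * u) ^ 2 - ((p : ℤ) - 1) * u + 1 := by
          rw [← hz]
          have h6 : p ^ 2 ∣ w * w + w + 1 := (pow_dvd_pow p h2).trans h
          exact_mod_cast Int.natCast_dvd_natCast.2 h6
        have := P2b hpz5 huz3 h5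
        exact_mod_cast this
      · nlinarith

end Pool.Agent.B17
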