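import Mathlib

set_option autoImplicit false

namespace Pool.Agent.B17

private theorem lb_gt {p q a b : ℕ} (hp5 : 5 ≤ p) (hg : (p - 1) * q ^ b + 1 = p ^ (2 * a + 1)) :
    4 * q ^ b ≤ 5 * p ^ (2 * a) := by
  obtain ⟨r, rfl⟩ : ∃ r, p = r + 5 := ⟨p - 5, by omega⟩
  have e : r + 5 - 1 = r + 4 := by omega
  rw [e, pow_succ] at hg
  generalize (r + 5) ^ (2 * a) = P at hg ⊢
  generalize q ^ b = Q at hg ⊢
  by_contra hcon
  push Not at hcon
  have h1 := Nat.mul_le_mul_right (r + 5) (show 5 * P + 1 ≤ 4 * Q from hcon)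
  have h2 : 0 ≤ r * Q := Nat.zero_le _
  nlinarith

private theorem lb_int {p q a b : ℕ} (hp1 : 1 ≤ p) (hg : (p - 1) * q ^ b + 1 = p ^ (2 * a + 1)) :
    ((p : ℤ) - 1) * (q : ℤ) ^ b + 1 = (p : ℤ) ^ (2 * a + 1) := by
  have h := congrArg (Nat.cast : ℕ → ℤ) hg
  rw [Nat.cast_add, Nat.cast_mul, Nat.cast_sub hp1, Nat.cast_pow, Nat.cast_pow, Nat.cast_one] at h
  exact h

private theorem lb_final {s v w : ℕ} (hs : 4 ≤ s) (h1 : w + 3 = s * v) (h2 : w * w = s + 3 + v) :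
    False := by
  have hv : 1 ≤ v := by
    rcases Nat.eq_zero_or_pos v with h | h
    · rw [h] at h1
      omega
    · exact h
  have h3 : s + v ≤ s * v + 1 := by
    obtain ⟨s', rfl⟩ : ∃ s', s = s' + 1 := ⟨s - 1, by omega⟩
    obtain ⟨v', rfl⟩ : ∃ v', v = v' + 1 := ⟨v - 1, by omega⟩
    nlinarith [Nat.zero_le (s' * v')]
  have h4 : w * w ≤ w + 7 := by omega
  have h5 : w ≤ 3 := by
    by_contra hcon
    push Not at hcon
    have := Nat.mul_le_mul_right w (show 4 ≤ w from hcon)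
    omega
  have h6 : v ≤ 1 := by
    by_contra hcon
    push Not at hcon
    have := Nat.mul_le_mul hs (show 2 ≤ v from hcon)
    omega
  have h7 : v = 1 := by omega
  rw [h7] at h1 h2
  rw [Nat.mul_one] at h1
  interval_cases w <;> omega

theorem LB0 {p q a b : ℕ} (hp : p.Prime) (hp5 : 5 ≤ p) (hb : 1 ≤ b)
    (hg : (p - 1) * q ^ b + 1 = p ^ (2 * a + 1)) (ha : 1 ≤ a) : ¬ p ^ 2 ∣ q ^ 4 + q ^ 2 + 1 := by
  have _ := hb
  intro hdvd
  have hg' := lb_int (by omega) hg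
  have hI : (p : ℤ) ^ 2 ∣ (q : ℤ) ^ 4 + (q : ℤ) ^ 2 + 1 := by exact_mod_cast hdvd
  have h1 : (p : ℤ) ^ 2 ∣ ((p : ℤ) - 1) * (q : ℤ) ^ b + 1 := by
    rw [hg']
    exact pow_dvd_pow _ (by omega)
  have h2 : (p : ℤ) ^ 2 ∣ ((q : ℤ) ^ 6) - 1 := by
    have e : ((q : ℤ) ^ 6) - 1 = ((q : ℤ) ^ 4 + (q : ℤ) ^ 2 + 1) * ((q : ℤ) ^ 2 - 1) := by ring
    rw [e]
    exact Dvd.dvd.mul_right hI _
  have h3 : (p : ℤ) ^ 2 ∣ ((q : ℤ) ^ 6) ^ b - 1 := by
    have h := sub_dvd_pow_sub_pow ((q : ℤ) ^ 6) 1 b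
    rw [one_pow] at h
    exact h2.trans h
  have h4 : (p : ℤ) ^ 2 ∣ ((p : ℤ) - 1) ^ 6 * ((q : ℤ) ^ 6) ^ b - 1 := by
    have e : ((p : ℤ) - 1) ^ 6 * ((q : ℤ) ^ 6) ^ b - 1 = (((p : ℤ) - 1) * (q : ℤ) ^ b + 1) *
        ((((p : ℤ) - 1) * (q : ℤ) ^ b) ^ 5 - (((p : ℤ) - 1) * (q : ℤ) ^ b) ^ 4 +
          (((p : ℤ) - 1) * (q : ℤ) ^ b) ^ 3 - (((p : ℤ) - 1) * (q : ℤ) ^ b) ^ 2 +
          (((p : ℤ) - 1) * (q : ℤ) ^ b) - 1) := by
      have e2 : ((q : ℤ) ^ 6) ^ b = ((q : ℤ) ^ b) ^ 6 := by rw [← pow_mul, ← pow_mul, Nat.mul_comm]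
      rw [e2]
      ring
    rw [e]
    exact Dvd.dvd.mul_right h1 _
  have h5 : (p : ℤ) ^ 2 ∣ ((p : ℤ) - 1) ^ 6 - 1 := by
    have e : ((p : ℤ) - 1) ^ 6 - 1 = (((p : ℤ) - 1) ^ 6 * ((q : ℤ) ^ 6) ^ b - 1) -
        (((q : ℤ) ^ 6) ^ b - 1) * ((p : ℤ) - 1) ^ 6 := by ring
    rw [e]
    exact dvd_sub h4 (Dvd.dvd.mul_right h3 _)
  have h6 : (p : ℤ) * (p : ℤ) ∣ 6 * (p : ℤ) := by
    have e : 6 * (p : ℤ) = (p : ℤ) ^ 2 * ((p : ℤ) ^ 4 - 6 * (p : ℤ) ^ 3 + 15 * (p : ℤ) ^ 2 -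
        20 * (p : ℤ) + 15) - (((p : ℤ) - 1) ^ 6 - 1) := by ring
    rw [e, ← sq]
    exact dvd_sub (dvd_mul_right _ _) h5
  have hp0 : (p : ℤ) ≠ 0 := by
    have : 0 < p := by omega
    exact_mod_cast this.ne'
  have h7 : (p : ℤ) ∣ 6 := (mul_dvd_mul_iff_right hp0).1 h6
  have h8 : p ∣ 6 := by exact_mod_cast h7
  have h9 : p ≤ 6 := Nat.le_of_dvd (by norm_num) h8
  interval_cases p
  · omega
  · exact absurd hp (by norm_num)

theorem LB {p q a b K c t m : ℕ} (hp : p.Prime) (hp5 : 5 ≤ p) (hq5 : 5 ≤ q)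
    (hpq : p ∣ q ^ 4 + q ^ 2 + 1) (hb : 1 ≤ b) (hg : (p - 1) * q ^ b + 1 = p ^ (2 * a + 1))
    (hct : c + t = 2 * a) (hc : p ^ c ≤ p * K) (hm : p ^ t ≤ m) : q ^ 2 ≤ 2 * K * m := by
  have hp0 : 0 < p := by omega
  have h1 := lb_gt hp5 hg
  have h2 : p ^ (2 * a) ≤ p * K * m := by
    rw [← hct, pow_add]
    exact Nat.mul_le_mul hc hm
  have h3 : 4 * q ^ b ≤ 5 * (p * K * m) := h1.trans (Nat.mul_le_mul_left 5 h2)
  have crit : 5 * (p * q ^ 2) ≤ 8 * q ^ b → q ^ 2 ≤ 2 * K * m := by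
    intro h
    have h4 : p * (5 * q ^ 2) ≤ p * (10 * (K * m)) := by nlinarith
    have h5 := Nat.le_of_mul_le_mul_left h4 hp0
    nlinarith
  have hg' := lb_int (by omega) hg
  have hI : (p : ℤ) ∣ (q : ℤ) ^ 4 + (q : ℤ) ^ 2 + 1 := by exact_mod_cast hpq
  have hn : ¬ (p : ℤ) ∣ (q : ℤ) ^ 2 - 1 := by
    intro h
    have h4 : (p : ℤ) ∣ 3 := by
      have e : (3 : ℤ) = ((q : ℤ) ^ 4 + (q : ℤ) ^ 2 + 1) - ((q : ℤ) ^ 2 - 1) * ((q : ℤ) ^ 2 + 2) := by
        ring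
      rw [e]
      exact dvd_sub hI (Dvd.dvd.mul_right h _)
    have h5 := Int.le_of_dvd (by norm_num) h4
    omega
  have hqb : (p : ℤ) ∣ (q : ℤ) ^ b - 1 := by
    have e : (q : ℤ) ^ b - 1 = (p : ℤ) * (q : ℤ) ^ b - (p : ℤ) ^ (2 * a + 1) := by
      rw [← hg']
      ring
    rw [e]
    exact dvd_sub (dvd_mul_right _ _) (dvd_pow_self _ (by omega))
  have hb3 : 3 ≤ b := by
    by_contra hlt
    have hb12 : b = 1 ∨ b = 2 := by omega
    rcases hb12 with h | h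
    · rw [h] at hqb
      apply hn
      have e : (q : ℤ) ^ 2 - 1 = ((q : ℤ) ^ 1 - 1) * ((q : ℤ) + 1) := by ring
      rw [e]
      exact Dvd.dvd.mul_right hqb _
    · rw [h] at hqb
      exact hn hqb
  have hpI : Prime (p : ℤ) := Nat.prime_iff_prime_int.1 hp
  have hple : p ≤ q ^ 2 + q + 1 := by
    have e : (q : ℤ) ^ 4 + (q : ℤ) ^ 2 + 1 = ((q : ℤ) ^ 2 + q + 1) * ((q : ℤ) ^ 2 - q + 1) := by ring
    have hI2 := hI
    rw [e] at hI2
    rcases hpI.dvd_or_dvd hI2 with h | h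
    · have h4 := Int.le_of_dvd (by positivity) h
      exact_mod_cast h4
    · have hq5' : (5 : ℤ) ≤ q := by exact_mod_cast hq5
      have h4 := Int.le_of_dvd (by nlinarith) h
      have h5 : (p : ℤ) ≤ (q : ℤ) ^ 2 + q + 1 := by linarith
      exact_mod_cast h5
  rcases Nat.lt_or_ge 3 b with hb4 | hb3'
  · apply crit
    have h5 : 5 * p ≤ 8 * q ^ 2 := by nlinarith
    have h6 : q ^ 2 * q ^ 2 ≤ q ^ b := by
      rw [← pow_add]
      exact Nat.pow_le_pow_right (by omega) (by omega)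
    calc 5 * (p * q ^ 2) = (5 * p) * q ^ 2 := by ring
      _ ≤ (8 * q ^ 2) * q ^ 2 := Nat.mul_le_mul_right _ h5
      _ = 8 * (q ^ 2 * q ^ 2) := by ring
      _ ≤ 8 * q ^ b := Nat.mul_le_mul_left 8 h6
  · have hbe : b = 3 := by omega
    subst hbe
    rcases Nat.lt_or_ge 1 a with ha | ha
    · apply crit
      have h7 : p ≤ q := by
        by_contra hcon
        push Not at hcon
        have h8 : (p - 1) * q ^ 3 + 1 ≤ p * q ^ 3 := by
          have hq3 : 1 ≤ q ^ 3 := Nat.one_le_pow _ _ (by omega)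
          obtain ⟨r, hr⟩ : ∃ r, p = r + 1 := ⟨p - 1, by omega⟩
          rw [hr, Nat.add_sub_cancel, Nat.add_mul, Nat.one_mul]
          omega
        rw [hg] at h8
        have h9 : p ^ 5 ≤ p ^ (2 * a + 1) := Nat.pow_le_pow_right hp0 (by omega)
        have h10 : p * p ^ 4 ≤ p * q ^ 3 := by
          calc p * p ^ 4 = p ^ 5 := by ring
            _ ≤ _ := h9.trans h8
        have h11 := Nat.le_of_mul_le_mul_left h10 hp0
        have h12 : q ^ 3 ≤ p ^ 3 := Nat.pow_le_pow_left hcon.le 3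
        have h13 : p ^ 3 < p ^ 4 := Nat.pow_lt_pow_right (by omega) (by omega)
        omega
      have h14 : p * q ^ 2 ≤ q ^ 3 := by
        calc p * q ^ 2 ≤ q * q ^ 2 := Nat.mul_le_mul_right _ h7
          _ = q ^ 3 := by ring
      omega
    · exfalso
      obtain ⟨r, hr⟩ : ∃ r, p = r + 1 := ⟨p - 1, by omega⟩
      have hr4 : 4 ≤ r := by omega
      obtain ⟨s, hs⟩ : ∃ s, q = s + 1 := ⟨q - 1, by omega⟩
      have hs4 : 4 ≤ s := by omega
      rcases Nat.eq_zero_or_pos a with ha0 | ha'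
      · rw [ha0, hr, Nat.add_sub_cancel] at hg
        have h4 : 1 < q ^ 3 := Nat.one_lt_pow (by norm_num) (by omega)
        have h5 := Nat.mul_lt_mul_of_pos_left h4 (show 0 < r by omega)
        simp only [Nat.mul_zero, Nat.zero_add, pow_one] at hg
        omega
      · have ha1 : a = 1 := by omega
        rw [ha1, hr, Nat.add_sub_cancel] at hg
        have h4 : r * q ^ 3 = r * (r ^ 2 + 3 * r + 3) := by
          have e : (r + 1) ^ (2 * 1 + 1) = r * (r ^ 2 + 3 * r + 3) + 1 := by ring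
          rw [e] at hg
          omega
        have h5 : q ^ 3 = r ^ 2 + 3 * r + 3 := Nat.eq_of_mul_eq_mul_left (by omega) h4
        have h6 : p * (p + 1) = s * (s ^ 2 + 3 * s + 3) := by
          rw [hs] at h5
          rw [hr]
          nlinarith
        have h7 : p ∣ s * (s ^ 2 + 3 * s + 3) := by
          rw [← h6]
          exact dvd_mul_right _ _
        rcases (Nat.Prime.dvd_mul hp).1 h7 with h8 | h8
        · apply hn
          have h9 : (p : ℤ) ∣ (s : ℤ) := by exact_mod_cast h8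
          have e : (q : ℤ) ^ 2 - 1 = (s : ℤ) * ((s : ℤ) + 2) := by
            rw [hs]
            push_cast
            ring
          rw [e]
          exact Dvd.dvd.mul_right h9 _
        · obtain ⟨w, hw⟩ := h8
          have h9 : p + 1 = s * w := by
            apply Nat.eq_of_mul_eq_mul_left hp0
            rw [h6, hw]
            ring
          have h10 : s * (w * w) = (s * s + 3 * s) + (w + 3) := by
            calc s * (w * w) = (s * w) * w := by ring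
              _ = (p + 1) * w := by rw [h9]
              _ = p * w + w := by ring
              _ = (s ^ 2 + 3 * s + 3) + w := by rw [hw]
              _ = _ := by ring
          have h11 : s ∣ w + 3 := by
            have h12 : s ∣ (s * s + 3 * s) + (w + 3) := by
              rw [← h10]
              exact dvd_mul_right _ _
            exact (Nat.dvd_add_right (Dvd.intro (s + 3) (by ring))).1 h12
          obtain ⟨v, hv⟩ := h11
          have h13 : w * w = s + 3 + v := by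
            apply Nat.eq_of_mul_eq_mul_left (show 0 < s by omega)
            rw [h10, hv]
            ring
          exact lb_final hs4 hv h13

end Pool.Agent.B17
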