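import Mathlib

namespace Pool.Agent.B17

private theorem a1 {n q : ℕ} (h : n * q ^ 2 + 1 = (n + 1) ^ 3) (hn : 2 ≤ n) : False := by
  have h1 : n * q ^ 2 = n * ((n + 1) ^ 2 + (n + 1) + 1) := by
    have : (n + 1) ^ 3 = n * ((n + 1) ^ 2 + (n + 1) + 1) + 1 := by ring
    omega
  have h2 : q ^ 2 = (n + 1) ^ 2 + (n + 1) + 1 := Nat.eq_of_mul_eq_mul_left (by omega) h1
  rcases Nat.lt_or_ge (n + 1) q with h3 | h3
  · have : (n + 2) ^ 2 ≤ q ^ 2 := Nat.pow_le_pow_left h3 2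
    nlinarith
  · have : q ^ 2 ≤ (n + 1) ^ 2 := Nat.pow_le_pow_left h3 2
    nlinarith

private theorem a2 {n q : ℕ} (h : n * q ^ 2 + 1 = (n + 1) ^ 5) (hn : 2 ≤ n) (hq4 : q % 4 = 1) : False := by
  obtain ⟨p, hp⟩ : ∃ p, p = n + 1 := ⟨_, rfl⟩
  have h1 : n * q ^ 2 = n * (p ^ 4 + p ^ 3 + p ^ 2 + p + 1) := by
    have : (n + 1) ^ 5 = n * (p ^ 4 + p ^ 3 + p ^ 2 + p + 1) + 1 := by rw [hp]; ring
    omega
  have h2 : q ^ 2 = p ^ 4 + p ^ 3 + p ^ 2 + p + 1 := Nat.eq_of_mul_eq_mul_left (by omega) h1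
  have h3 : 2 * p ^ 2 + p < 2 * q := by
    by_contra hc
    have h4 : (2 * q) ^ 2 ≤ (2 * p ^ 2 + p) ^ 2 := Nat.pow_le_pow_left (by omega) 2
    nlinarith
  have h5 : 2 * q < 2 * p ^ 2 + p + 2 := by
    by_contra hc
    have h4 : (2 * p ^ 2 + p + 2) ^ 2 ≤ (2 * q) ^ 2 := Nat.pow_le_pow_left (by omega) 2
    nlinarith
  have h6 : 2 * q = 2 * p ^ 2 + p + 1 := by omega
  have h7 : (2 * q) ^ 2 = (2 * p ^ 2 + p + 1) ^ 2 := by rw [h6]
  have h8 : p ^ 2 = 2 * p + 3 := by nlinarith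
  have h9 : p ≤ 3 := by nlinarith
  have h10 : p = 3 := by omega
  rw [h10] at h6
  omega

/-- `(p-1) u ≡ -1` modulo `p^v`. -/
private theorem div_aux {n q a b u v : ℕ} (hP : (n + 1) ^ v ∣ q + 1) (hva : v ≤ 2 * a)
    (hg : n * u * q ^ b + 1 = (n + 1) ^ (2 * a + 1)) (hb : Even b) : (n + 1) ^ v ∣ n * u + 1 := by
  have h1 : (q : ℤ) ≡ -1 [ZMOD ((n + 1) ^ v : ℕ)] := by
    rw [Int.modEq_iff_dvd]
    have h2 : (((n + 1) ^ v : ℕ) : ℤ) ∣ ((q + 1 : ℕ) : ℤ) := by exact_mod_cast hP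
    have h3 : (-1 : ℤ) - q = - ((q + 1 : ℕ) : ℤ) := by push_cast; ring
    rw [h3]
    exact (dvd_neg).2 h2
  have h2 : (q : ℤ) ^ b ≡ 1 [ZMOD ((n + 1) ^ v : ℕ)] := by
    have := h1.pow b
    rwa [hb.neg_one_pow] at this
  have h3 : (n : ℤ) * u * (q : ℤ) ^ b + 1 ≡ n * u * 1 + 1 [ZMOD ((n + 1) ^ v : ℕ)] :=
    (h2.mul_left (n * u)).add_right 1
  have h4 : (((n + 1) ^ v : ℕ) : ℤ) ∣ (n : ℤ) * u * (q : ℤ) ^ b + 1 := by
    have h5 : (n + 1) ^ v ∣ n * u * q ^ b + 1 := by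
      rw [hg]
      exact pow_dvd_pow _ (by omega)
    exact_mod_cast h5
  have h5 : (((n + 1) ^ v : ℕ) : ℤ) ∣ ((n * u + 1 : ℕ) : ℤ) := by
    have h6 := h3.dvd_iff.1 h4
    push_cast at h6 ⊢
    simpa using h6
  exact_mod_cast h5

/-- The case `p ∣ q + 1` with an even exponent. -/
theorem LC {p q a b u v K c t m : ℕ} (hp : p.Prime) (hp2 : p ≠ 2) (hq5 : 5 ≤ q) (hq4 : q % 4 = 1) (hv : 1 ≤ v)
    (hP : p ^ v ∣ q + 1) (hPq : 2 * p ^ v ≤ q + 1) (hva : v ≤ 2 * a)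
    (hg : (p - 1) * u * q ^ b + 1 = p ^ (2 * a + 1)) (hb : Even b) (hb2 : 2 ≤ b) (hu : 1 ≤ u) (hct : c + t = 2 * a)
    (hc : p ^ c ≤ p ^ v * K) (hm : u * p ^ t ≤ m) :
    q ^ 2 ≤ 2 * K * m ∨ (v = 1 ∧ u = 1 ∧ b = 2 ∧ 3 ≤ a) := by
  have hp3 : 3 ≤ p := by
    have := hp.two_le
    omega
  obtain ⟨n, rfl⟩ : ∃ n, p = n + 1 := ⟨p - 1, by omega⟩
  rw [Nat.add_sub_cancel] at hg
  have hn : 2 ≤ n := by omega
  have hdvd := div_aux hP hva hg hb
  obtain ⟨P, hPd⟩ : ∃ P, P = (n + 1) ^ v := ⟨_, rfl⟩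
  obtain ⟨A, hA⟩ : ∃ A, A = (n + 1) ^ (2 * a) := ⟨_, rfl⟩
  have hPpos : 0 < P := by rw [hPd]; positivity
  -- main inequality
  have h1 : u * A ≤ P * K * m := by
    have h2 : u * A = (n + 1) ^ c * (u * (n + 1) ^ t) := by rw [hA, ← hct, pow_add]; ring
    rw [h2, hPd]
    calc (n + 1) ^ c * (u * (n + 1) ^ t) ≤ ((n + 1) ^ v * K) * m := Nat.mul_le_mul hc hm
      _ = _ := by ring
  have h2 : n * u * q ^ b + 1 = (n + 1) * A := by rw [hg, hA, pow_succ]; ring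
  have h3 : 2 * (u * q ^ b) ≤ 3 * A := by
    -- n * (u q^b) < (n+1) A
    have h4 : 2 * (n + 1) ≤ 3 * n := by omega
    have h5 : 2 * (n + 1) * (u * q ^ b) ≤ 3 * ((n + 1) * A) := by
      calc 2 * (n + 1) * (u * q ^ b) ≤ 3 * n * (u * q ^ b) := Nat.mul_le_mul_right _ h4
        _ = 3 * (n * u * q ^ b) := by ring
        _ ≤ 3 * ((n + 1) * A) := by omega
    have h6 : (n + 1) * (2 * (u * q ^ b)) ≤ (n + 1) * (3 * A) := by
      calc (n + 1) * (2 * (u * q ^ b)) = 2 * (n + 1) * (u * q ^ b) := by ring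
        _ ≤ _ := h5
        _ = _ := by ring
    exact Nat.le_of_mul_le_mul_left h6 (by omega)
  have key : 3 * P * q ^ 2 ≤ 4 * u ^ 2 * q ^ b → q ^ 2 ≤ 2 * K * m := by
    intro h
    have h4 : 4 * u ^ 2 * q ^ b ≤ 6 * (u * A) := by
      calc 4 * u ^ 2 * q ^ b = 2 * u * (2 * (u * q ^ b)) := by ring
        _ ≤ 2 * u * (3 * A) := Nat.mul_le_mul_left _ h3
        _ = _ := by ring
    have h5 : 3 * P * q ^ 2 ≤ 3 * P * (2 * K * m) := by
      calc 3 * P * q ^ 2 ≤ 4 * u ^ 2 * q ^ b := h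
        _ ≤ 6 * (u * A) := h4
        _ ≤ 6 * (P * K * m) := Nat.mul_le_mul_left _ h1
        _ = _ := by ring
    exact Nat.le_of_mul_le_mul_left h5 (by positivity)
  have key2 : P ≤ u ^ 2 → q ^ 2 ≤ 2 * K * m := by
    intro h
    apply key
    have h4 : q ^ 2 ≤ q ^ b := Nat.pow_le_pow_right (by omega) hb2
    calc 3 * P * q ^ 2 ≤ 4 * u ^ 2 * q ^ 2 := Nat.mul_le_mul_right _ (by omega)
      _ ≤ _ := Nat.mul_le_mul_left _ h4
  have h5 : P ≤ n * u + 1 := by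
    rw [hPd]
    exact Nat.le_of_dvd (by omega) hdvd
  have h6 : P ≤ (n + 1) * u := by nlinarith
  rcases Nat.lt_or_ge 1 v with hv2 | hv1
  · left
    apply key2
    obtain ⟨w, rfl⟩ : ∃ w, v = w + 2 := ⟨v - 2, by omega⟩
    have h7 : (n + 1) ^ (w + 1) ≤ u := by
      have h8 : (n + 1) * (n + 1) ^ (w + 1) ≤ (n + 1) * u := by
        calc (n + 1) * (n + 1) ^ (w + 1) = (n + 1) ^ (w + 2) := by ring
          _ = P := hPd.symm
          _ ≤ _ := h6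
      exact Nat.le_of_mul_le_mul_left h8 (by omega)
    calc P = (n + 1) ^ (w + 2) := hPd
      _ ≤ (n + 1) ^ (2 * (w + 1)) := Nat.pow_le_pow_right (by omega) (by omega)
      _ = ((n + 1) ^ (w + 1)) ^ 2 := by rw [mul_comm, pow_mul]
      _ ≤ u ^ 2 := Nat.pow_le_pow_left h7 2
  · have hv1' : v = 1 := by omega
    subst hv1'
    rw [pow_one] at hPd hdvd hPq
    subst hPd
    rcases Nat.lt_or_ge 1 u with hu2 | hu1
    · left
      apply key2
      have h7 : n + 1 ∣ u - 1 := by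
        have h8 : n + 1 ∣ (n + 1) * u - (n * u + 1) := Nat.dvd_sub (dvd_mul_right _ _) hdvd
        have h9 : (n + 1) * u - (n * u + 1) = u - 1 := by
          have : (n + 1) * u = n * u + u := by ring
          omega
        rwa [h9] at h8
      have h8 : n + 1 ≤ u - 1 := Nat.le_of_dvd (by omega) h7
      have h9 : n + 1 ≤ u := by omega
      nlinarith
    · have hu1' : u = 1 := by omega
      subst hu1'
      rcases Nat.lt_or_ge 2 b with hb3 | hb3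
      · left
        apply key
        have h7 : q ^ 3 ≤ q ^ b := Nat.pow_le_pow_right (by omega) hb3
        have h8 : n + 1 ≤ q := by omega
        calc 3 * (n + 1) * q ^ 2 ≤ 4 * q * q ^ 2 := Nat.mul_le_mul_right _ (by omega)
          _ = 4 * 1 ^ 2 * q ^ 3 := by ring
          _ ≤ _ := Nat.mul_le_mul_left _ h7
      · right
        have hb' : b = 2 := by omega
        subst hb'
        refine ⟨rfl, rfl, rfl, ?_⟩
        rw [mul_one] at hg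
        by_contra hc3
        have ha : a = 1 ∨ a = 2 := by omega
        rcases ha with rfl | rfl
        · exact a1 hg hn
        · exact a2 hg hn hq4

end Pool.Agent.B17
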