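import Pool.Agent.H17E.Pre
import Pool.Agent.H76D.A
import Pool.Agent.B17.LA
import Pool.Agent.B17.LC
import Pool.Agent.B17.LB

set_option autoImplicit false

namespace Pool.Agent.B17

open ArithmeticFunction Finset Pool.Agent.H17E

theorem main2 {q k n L : ℕ} (hodd : Odd (q ^ k * n ^ 2)) (hperf : Nat.Perfect (q ^ k * n ^ 2))
    (hq : q.Prime) (hq4 : q % 4 = 1) (hcop : Nat.Coprime q n) (hk : k + 1 = 6 * L) (hL : L ≠ 0) :
    q ^ (k + 2) < 6 * 2 ^ k * n ^ 2 := by
  classical
  have hq5 : 5 ≤ q := by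
    have := hq.two_le
    omega
  obtain ⟨m, hm0, hm, hW⟩ := setup hodd hperf hq hcop
  have hnodd : Odd n := by
    have h1 := (Nat.odd_mul.1 hodd).2
    exact (Nat.odd_pow_iff two_ne_zero).1 h1
  have hn0 : n ≠ 0 := by
    rintro rfl
    simp at hnodd
  have hN0 : n ^ 2 ≠ 0 := pow_ne_zero _ hn0
  have hK0 : 3 * L ≠ 0 := by omega
  have hkK : k + 1 = 2 * (3 * L) := by omega
  set W := sigma 1 (q ^ k) with hWdef
  have hW0 : W ≠ 0 := by
    intro h
    rw [h, zero_mul] at hW
    have : 0 < 2 * n ^ 2 := by positivity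
    omega
  have hqm : ¬ q ∣ m := by
    intro h
    have h1 : q ∣ 2 * n ^ 2 := by rw [← hW]; exact h.mul_left W
    rcases (Nat.Prime.dvd_mul hq).1 h1 with h2 | h2
    · have := Nat.le_of_dvd (by norm_num) h2
      omega
    · have h3 := hq.dvd_of_dvd_pow h2
      exact ((Nat.Prime.coprime_iff_not_dvd hq).1 hcop) h3
  -- valuations
  have hval : ∀ p : ℕ, p.Prime → p ≠ 2 →
      (n ^ 2).factorization p = padicValNat p W + m.factorization p := by
    intro p hp hp2
    have : Fact p.Prime := ⟨hp⟩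
    have h1 : padicValNat p (W * m) = padicValNat p (2 * n ^ 2) := by rw [hW]
    rw [padicValNat.mul hW0 hm0, padicValNat.mul two_ne_zero hN0] at h1
    have h2 : padicValNat p 2 = 0 := by
      apply padicValNat.eq_zero_of_not_dvd
      intro h
      exact hp2 ((Nat.prime_dvd_prime_iff_eq hp Nat.prime_two).1 h)
    rw [Nat.factorization_def _ hp, Nat.factorization_def _ hp]
    omega
  have heven : ∀ p : ℕ, (n ^ 2).factorization p = 2 * n.factorization p := by
    intro p
    rw [Nat.factorization_pow]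
    simp
  have hmem : ∀ p : ℕ, p.Prime → p ≠ 2 → p ∣ W → p ∈ (n ^ 2).primeFactors := by
    intro p hp hp2 hpW
    rw [Nat.mem_primeFactors]
    refine ⟨hp, ?_, hN0⟩
    have h1 : p ∣ 2 * n ^ 2 := by rw [← hW]; exact hpW.mul_right m
    rcases (Nat.Prime.dvd_mul hp).1 h1 with h | h
    · exact absurd ((Nat.prime_dvd_prime_iff_eq hp Nat.prime_two).1 h) hp2
    · exact h
  have hd6 := dvd_sig6 hq hk
  rw [← hWdef] at hd6
  set S1 := (q + 1).primeFactors.erase 2 with hS1
  set S2 := (q ^ 4 + q ^ 2 + 1).primeFactors.erase 3 with hS2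
  have hF0 : q ^ 4 + q ^ 2 + 1 ≠ 0 := by positivity
  have hFodd : ¬ 2 ∣ q ^ 4 + q ^ 2 + 1 := by
    intro h
    have h1 : (q ^ 4 + q ^ 2 + 1) % 2 = 0 := Nat.mod_eq_zero_of_dvd h
    have h2 : (q ^ 4 + q ^ 2 + 1) % 2 = ((q % 2) ^ 4 + (q % 2) ^ 2 + 1) % 2 := by
      simp [Nat.add_mod, Nat.pow_mod]
    have h3 : q % 2 = 1 := by omega
    rw [h2, h3] at h1
    norm_num at h1
  have hS1p : ∀ p ∈ S1, p.Prime ∧ p ≠ 2 ∧ p ∣ q + 1 := by
    intro p hp
    have h1 := Finset.mem_erase.1 hp
    exact ⟨Nat.prime_of_mem_primeFactors h1.2, h1.1, Nat.dvd_of_mem_primeFactors h1.2⟩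
  have hS2p : ∀ p ∈ S2, p.Prime ∧ 5 ≤ p ∧ p ∣ q ^ 4 + q ^ 2 + 1 := by
    intro p hp
    have h1 := Finset.mem_erase.1 hp
    have hpp := Nat.prime_of_mem_primeFactors h1.2
    have hpd := Nat.dvd_of_mem_primeFactors h1.2
    refine ⟨hpp, ?_, hpd⟩
    by_contra h
    push Not at h
    have h2 := hpp.two_le
    interval_cases p
    · exact hFodd hpd
    · exact h1.1 rfl
    · exact absurd hpp (by norm_num)
  have hdisj : Disjoint S1 S2 := by
    rw [Finset.disjoint_left]
    intro p h1 h2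
    obtain ⟨hp, _, hpd⟩ := hS1p p h1
    obtain ⟨_, hp5, hpF⟩ := hS2p p h2
    have h3 : q ^ 4 + q ^ 2 + 1 + (q + 1) * (q ^ 2 + 2) = (q + 1) * (q ^ 3 + 2 * q) + 3 := by ring
    have h4 : p ∣ (q + 1) * (q ^ 3 + 2 * q) + 3 := h3 ▸ (hpF.add (hpd.mul_right _))
    have h5 := (Nat.dvd_add_right (hpd.mul_right _)).1 h4
    have := Nat.le_of_dvd (by norm_num) h5
    omega
  have hTsub : S1 ∪ S2 ⊆ (n ^ 2).primeFactors := by
    intro p hp
    rcases Finset.mem_union.1 hp with h | h
    · obtain ⟨h1, h2, h3⟩ := hS1p p h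
      exact hmem p h1 h2 ((h3.mul_right _).trans hd6)
    · obtain ⟨h1, h2, h3⟩ := hS2p p h
      exact hmem p h1 (by omega) ((h3.mul_left _).trans hd6)
  have hTprime : ∀ p ∈ S1 ∪ S2, p.Prime := fun p hp =>
    Nat.prime_of_mem_primeFactors (hTsub hp)
  -- exponents of `q`
  set bb : ℕ → ℕ := fun p => (sigma 1 (p ^ (n ^ 2).factorization p)).factorization q with hbb
  have hu : ∀ p : ℕ, sigma 1 (p ^ (2 * n.factorization p)) = q ^ bb p * uu q n p := by
    intro p
    have h1 := uu_eq q n p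
    rw [← heven p]
    exact h1
  have hgg : ∀ p : ℕ, p.Prime →
      (p - 1) * uu q n p * q ^ bb p + 1 = p ^ (2 * n.factorization p + 1) := by
    intro p hp
    have h1 := geo hp (2 * n.factorization p)
    rw [hu p] at h1
    calc (p - 1) * uu q n p * q ^ bb p + 1 = q ^ bb p * uu q n p * (p - 1) + 1 := by ring
      _ = _ := h1
  have hupos : ∀ p : ℕ, p.Prime → 1 ≤ uu q n p := by
    intro p hp
    rcases Nat.eq_zero_or_pos (uu q n p) with h | h
    · exfalso
      have h1 := hu p
      rw [h, mul_zero] at h1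
      have h2 := le_sig (n := p ^ (2 * n.factorization p)) (pow_ne_zero _ hp.ne_zero)
      have h3 : 0 < p ^ (2 * n.factorization p) := pow_pos hp.pos _
      omega
    · exact h
  have huge : ∀ p : ℕ, p.Prime → bb p = 0 → p ^ (2 * n.factorization p) ≤ uu q n p := by
    intro p hp h0
    have h1 := hu p
    rw [h0, pow_zero, one_mul] at h1
    rw [← h1]
    exact le_sig (pow_ne_zero _ hp.ne_zero)
  have huodd : ∀ p : ℕ, p.Prime → p ≠ 2 → Odd (uu q n p) := by
    intro p hp hp2
    have h2 := odd_sig (hp.odd_of_ne_two hp2) hp (n.factorization p)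
    rw [hu p] at h2
    exact (Nat.odd_mul.1 h2).2
  -- `u p ^ t ≤ m`
  have hum : ∀ p ∈ S1 ∪ S2, uu q n p * p ^ m.factorization p ≤ m := by
    intro p hp
    have hpp := hTprime p hp
    have h1 : uu q n p ∣ m := by
      have h2 := produ_dvd hq hn0 hm {p} (Finset.singleton_subset_iff.2 (hTsub hp))
      simpa using h2
    have h2 : p ^ m.factorization p ∣ m := Nat.ordProj_dvd m p
    have h3 : Nat.Coprime (uu q n p) (p ^ m.factorization p) := by
      refine Nat.Coprime.pow_right _ ?_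
      have h4 := coprime_sig_self hpp (2 * n.factorization p)
      rw [hu p] at h4
      exact Nat.Coprime.coprime_mul_left h4
    exact Nat.le_of_dvd (Nat.pos_of_ne_zero hm0) (h3.mul_dvd_of_dvd_of_dvd h1 h2)
  -- valuations of `W`
  have hv1 : ∀ p ∈ S1, padicValNat p W = padicValNat p (q + 1) + padicValNat p (3 * L) := by
    intro p hp
    obtain ⟨h1, h2, h3⟩ := hS1p p hp
    exact val_sig h1 h2 hq h3 hkK hK0
  have hv2 : ∀ p ∈ S2, padicValNat p W =
      padicValNat p (q ^ 4 + q ^ 2 + 1) + padicValNat p (3 * L) := by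
    intro p hp
    obtain ⟨h1, h2, h3⟩ := hS2p p hp
    exact val_sig6 h1 h2 hq h3 hk hL
  have h2a : ∀ p : ℕ, p.Prime → p ≠ 2 →
      padicValNat p W + m.factorization p = 2 * n.factorization p := by
    intro p hp hp2
    have := hval p hp hp2
    rw [heven] at this
    exact this.symm
  have hKle : ∀ p : ℕ, p ^ padicValNat p (3 * L) ≤ 3 * L := fun p =>
    Nat.le_of_dvd (Nat.pos_of_ne_zero hK0) pow_padicValNat_dvd
  set A1 := ∏ p ∈ S1, p ^ (q + 1).factorization p with hA1
  set A2 := ∏ p ∈ S2, p ^ (q ^ 4 + q ^ 2 + 1).factorization p with hA2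
  have hq1 : q + 1 = 2 * A1 := fac_one hq4
  have hq2 : q ^ 4 + q ^ 2 + 1 ≤ 3 * A2 := fac_two q
  have hP2 : ∀ p ∈ S1, 2 * p ^ padicValNat p (q + 1) ≤ q + 1 := by
    intro p hp
    obtain ⟨h1, h2, h3⟩ := hS1p p hp
    have hPd : p ^ padicValNat p (q + 1) ∣ q + 1 := pow_padicValNat_dvd
    have h4 : Nat.Coprime 2 (p ^ padicValNat p (q + 1)) :=
      ((Nat.coprime_primes Nat.prime_two h1).2 (Ne.symm h2)).pow_right _
    exact Nat.le_of_dvd (by omega) (h4.mul_dvd_of_dvd_of_dvd (by omega) hPd)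
  have hKk : 3 * L ≤ 2 ^ k := by
    have : k < 2 ^ k := Nat.lt_two_pow_self
    omega
  -- the main bound
  have hmain : q ^ 8 ≤ 48 * (2 ^ k * m) ^ 4 := by
    by_cases hX : q ^ 2 ≤ 2 * (3 * L) * m
    · calc q ^ 8 = (q ^ 2) ^ 4 := by ring
        _ ≤ (2 * (3 * L) * m) ^ 4 := Nat.pow_le_pow_left hX 4
        _ = 16 * (3 * L * m) ^ 4 := by ring
        _ ≤ 16 * (2 ^ k * m) ^ 4 := by gcongr
        _ ≤ 48 * (2 ^ k * m) ^ 4 := by gcongr; norm_num
    have hC : ∀ p ∈ S1, Even (bb p) → 2 ≤ bb p →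
        (padicValNat p (q + 1) = 1 ∧ uu q n p = 1 ∧ bb p = 2 ∧ 3 ≤ n.factorization p) := by
      intro p hp hbe hb2
      obtain ⟨h1, h2, h3⟩ := hS1p p hp
      have hf : Fact p.Prime := ⟨h1⟩
      have h4 := LC (K := 3 * L) (c := padicValNat p W) (t := m.factorization p) (m := m) h1 h2 hq5
        hq4 (one_le_padicValNat_of_dvd (by omega) h3) pow_padicValNat_dvd (hP2 p hp)
        (by have := h2a p h1 h2; have := hv1 p hp; omega) (hgg p h1) hbe hb2 (hupos p h1)
        (h2a p h1 h2) (by rw [hv1 p hp, pow_add]; exact Nat.mul_le_mul_left _ (hKle p))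
        (hum p (mem_union_left _ hp))
      rcases h4 with h4 | h4
      · exact absurd h4 hX
      · exact h4
    by_cases hE : ∃ p ∈ S1, Even (bb p) ∧ 2 ≤ bb p
    · -- the special prime
      obtain ⟨p0, hp0, hbe, hb2⟩ := hE
      obtain ⟨hv0, hu0, hb0, ha0⟩ := hC p0 hp0 hbe hb2
      obtain ⟨g1, g2, g3⟩ := hS1p p0 hp0
      have hl1 : ∀ p ∈ S1, p ^ (q + 1).factorization p ≤
          p ^ m.factorization p * uu q n p * p ^ (3 * L).factorization p := by
        intro p hp
        obtain ⟨h1, h2, h3⟩ := hS1p p hp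
        have hA : p ^ (2 * n.factorization p) =
            p ^ padicValNat p (q + 1) * p ^ (3 * L).factorization p * p ^ m.factorization p := by
          rw [← h2a p h1 h2, hv1 p hp, pow_add, pow_add, Nat.factorization_def (3 * L) h1]
        have h6 := local1 h1 h2 hq hq4 h3 hA (hu p)
        rw [Nat.factorization_def (q + 1) h1]
        exact h6
      have hl2 : ∀ p ∈ S2, p ^ (q ^ 4 + q ^ 2 + 1).factorization p ≤
          (p ^ m.factorization p * uu q n p * p ^ (3 * L).factorization p) ^ 2 := by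
        intro p hp
        obtain ⟨h1, h2, h3⟩ := hS2p p hp
        have hA : p ^ (2 * n.factorization p) =
            p ^ padicValNat p (q ^ 4 + q ^ 2 + 1) * p ^ (3 * L).factorization p
              * p ^ m.factorization p := by
          rw [← h2a p h1 (by omega), hv2 p hp, pow_add, pow_add, Nat.factorization_def (3 * L) h1]
        have h6 := local2 h1 h2 hq h3 hA (hu p)
        rw [Nat.factorization_def (q ^ 4 + q ^ 2 + 1) h1]
        exact h6
      have hl0 : q * p0 ^ (q + 1).factorization p0 ≤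
          p0 ^ m.factorization p0 * uu q n p0 * p0 ^ (3 * L).factorization p0 := by
        rw [Nat.factorization_def (q + 1) g1, hv0, hu0, pow_one, mul_one]
        have hg0 := hgg p0 g1
        rw [hu0, hb0, mul_one] at hg0
        set a := n.factorization p0 with ha
        have hp3 : 3 ≤ p0 := by
          have := g1.two_le
          omega
        -- `q p0 ^ 2 ≤ p0 ^ (2 a)`
        have h7 : q * p0 ^ 2 ≤ p0 ^ (2 * a) := by
          by_contra hcon
          push Not at hcon
          have h8 : p0 ^ 6 ≤ p0 ^ (2 * a) := Nat.pow_le_pow_right g1.pos (by omega)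
          have h9 : p0 ^ 4 < q := by
            have h10 : p0 ^ 2 * p0 ^ 4 < p0 ^ 2 * q := by
              calc p0 ^ 2 * p0 ^ 4 = p0 ^ 6 := by ring
                _ ≤ p0 ^ (2 * a) := h8
                _ < q * p0 ^ 2 := hcon
                _ = p0 ^ 2 * q := by ring
            exact lt_of_mul_lt_mul_left h10 (Nat.zero_le _)
          have h11 : (p0 - 1) * q ^ 2 + 1 < q * p0 ^ 3 := by
            rw [hg0]
            calc p0 ^ (2 * a + 1) = p0 ^ (2 * a) * p0 := by ring
              _ < q * p0 ^ 2 * p0 := Nat.mul_lt_mul_of_pos_right hcon g1.pos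
              _ = q * p0 ^ 3 := by ring
          have h12 : (p0 - 1) * q < p0 ^ 3 := by
            have h13 : q * ((p0 - 1) * q) < q * p0 ^ 3 := by
              calc q * ((p0 - 1) * q) = (p0 - 1) * q ^ 2 := by ring
                _ < q * p0 ^ 3 := by omega
            exact lt_of_mul_lt_mul_left h13 (Nat.zero_le _)
          have h14 : q ≤ (p0 - 1) * q := Nat.le_mul_of_pos_left _ (by omega)
          have h15 : p0 ^ 3 ≤ p0 ^ 4 := Nat.pow_le_pow_right g1.pos (by norm_num)
          omega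
        have h8 : p0 ^ (2 * a) = p0 * (p0 ^ m.factorization p0 * p0 ^ (3 * L).factorization p0) := by
          rw [ha, ← h2a p0 g1 g2, hv1 p0 hp0, hv0, Nat.factorization_def (3 * L) g1]
          ring
        rw [h8] at h7
        have h9 : p0 * (q * p0) ≤
            p0 * (p0 ^ m.factorization p0 * p0 ^ (3 * L).factorization p0) := by
          calc p0 * (q * p0) = q * p0 ^ 2 := by ring
            _ ≤ _ := h7
        exact Nat.le_of_mul_le_mul_left h9 g1.pos
      have hprod1 : q * A1 ≤ ∏ p ∈ S1,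
          (p ^ m.factorization p * uu q n p * p ^ (3 * L).factorization p) := by
        rw [hA1, ← Finset.mul_prod_erase S1 _ hp0, ← Finset.mul_prod_erase S1
          (fun p => p ^ m.factorization p * uu q n p * p ^ (3 * L).factorization p) hp0]
        rw [← mul_assoc]
        apply Nat.mul_le_mul hl0
        exact Finset.prod_le_prod' fun p hp => hl1 p (Finset.mem_of_mem_erase hp)
      have hprod : (q * A1) ^ 2 * A2 ≤ (m * m * (3 * L)) ^ 2 := by
        have h1 : (q * A1) ^ 2 ≤ ∏ p ∈ S1,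
            (p ^ m.factorization p * uu q n p * p ^ (3 * L).factorization p) ^ 2 := by
          rw [Finset.prod_pow]
          exact Nat.pow_le_pow_left hprod1 2
        have h2 : A2 ≤ ∏ p ∈ S2,
            (p ^ m.factorization p * uu q n p * p ^ (3 * L).factorization p) ^ 2 :=
          Finset.prod_le_prod' hl2
        calc (q * A1) ^ 2 * A2 ≤ (∏ p ∈ S1,
              (p ^ m.factorization p * uu q n p * p ^ (3 * L).factorization p) ^ 2) *
              ∏ p ∈ S2,
              (p ^ m.factorization p * uu q n p * p ^ (3 * L).factorization p) ^ 2 :=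
              Nat.mul_le_mul h1 h2
          _ = ∏ p ∈ S1 ∪ S2,
              (p ^ m.factorization p * uu q n p * p ^ (3 * L).factorization p) ^ 2 :=
              (Finset.prod_union hdisj).symm
          _ = ((∏ p ∈ S1 ∪ S2, p ^ m.factorization p) * (∏ p ∈ S1 ∪ S2, uu q n p) *
              (∏ p ∈ S1 ∪ S2, p ^ (3 * L).factorization p)) ^ 2 := by
              rw [Finset.prod_pow, Finset.prod_mul_distrib, Finset.prod_mul_distrib]
          _ ≤ (m * m * (3 * L)) ^ 2 := by
              apply Nat.pow_le_pow_left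
              apply Nat.mul_le_mul
              · apply Nat.mul_le_mul
                · exact Nat.le_of_dvd (Nat.pos_of_ne_zero hm0) (prodpow_dvd hm0 _ hTprime)
                · exact Nat.le_of_dvd (Nat.pos_of_ne_zero hm0) (produ_dvd hq hn0 hm _ hTsub)
              · exact Nat.le_of_dvd (Nat.pos_of_ne_zero hK0) (prodpow_dvd hK0 _ hTprime)
      calc q ^ 8 ≤ q ^ 2 * ((q + 1) ^ 2 * (q ^ 4 + q ^ 2 + 1)) := by
            have h7 : q ^ 2 * ((q + 1) ^ 2 * (q ^ 4 + q ^ 2 + 1))
                = q ^ 8 + q ^ 2 * (2 * q ^ 5 + 2 * q ^ 4 + 2 * q ^ 3 + 2 * q ^ 2 + 2 * q + 1) := by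
              ring
            rw [h7]
            exact Nat.le_add_right _ _
        _ ≤ q ^ 2 * ((2 * A1) ^ 2 * (3 * A2)) := by
            rw [hq1.symm]
            exact Nat.mul_le_mul_left _ (Nat.mul_le_mul_left _ hq2)
        _ = 12 * ((q * A1) ^ 2 * A2) := by ring
        _ ≤ 12 * (m * m * (3 * L)) ^ 2 := Nat.mul_le_mul_left _ hprod
        _ ≤ 12 * (m * m * (2 ^ k)) ^ 2 := by gcongr
        _ = 12 * (2 ^ k) ^ 2 * m ^ 4 := by ring
        _ ≤ 48 * ((2 ^ k) ^ 2 * (2 ^ k) ^ 2) * m ^ 4 := by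
            have h1 : 1 ≤ (2 ^ k) ^ 2 := Nat.one_le_pow _ _ (pow_pos (by norm_num) _)
            have h2 : (2 ^ k) ^ 2 ≤ (2 ^ k) ^ 2 * (2 ^ k) ^ 2 := Nat.le_mul_of_pos_left _ h1
            gcongr
            · norm_num
        _ = 48 * (2 ^ k * m) ^ 4 := by ring
    · -- no exceptional prime
      push Not at hE
      have hm1 : ∀ p ∈ S1, p ^ (q + 1).factorization p ≤ 2 ^ bb p * uu q n p := by
        intro p hp
        obtain ⟨h1, h2, h3⟩ := hS1p p hp
        have hf : Fact p.Prime := ⟨h1⟩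
        rw [Nat.factorization_def (q + 1) h1]
        have hle : padicValNat p (q + 1) ≤ 2 * n.factorization p := by
          have := h2a p h1 h2; have := hv1 p hp; omega
        rcases Nat.eq_zero_or_pos (bb p) with h0 | h0
        · rw [h0, pow_zero, one_mul]
          exact (Nat.pow_le_pow_right h1.pos hle).trans (huge p h1 h0)
        · have hbo : Odd (bb p) := by
            by_contra hbo
            have hbe : Even (bb p) := Nat.not_odd_iff_even.1 hbo
            have h5 := hE p hp hbe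
            obtain ⟨j, hj⟩ := hbe
            omega
          have h5 := Pool.Agent.H76D.L2 h1 h2 hle pow_padicValNat_dvd (hgg p h1) hbo
            (one_le_padicValNat_of_dvd (by omega) h3) (hupos p h1)
          calc p ^ padicValNat p (q + 1) ≤ 2 * uu q n p := h5
            _ = 2 ^ 1 * uu q n p := by ring
            _ ≤ 2 ^ bb p * uu q n p := by gcongr <;> omega
      have hm2 : ∀ p ∈ S2, p ^ (q ^ 4 + q ^ 2 + 1).factorization p ≤
          (2 ^ bb p * uu q n p) ^ 4 := by
        intro p hp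
        obtain ⟨h1, h2, h3⟩ := hS2p p hp
        have hf : Fact p.Prime := ⟨h1⟩
        rw [Nat.factorization_def (q ^ 4 + q ^ 2 + 1) h1]
        have hle : padicValNat p (q ^ 4 + q ^ 2 + 1) ≤ 2 * n.factorization p := by
          have := h2a p h1 (by omega); have := hv2 p hp; omega
        have hτ1 : 1 ≤ padicValNat p (q ^ 4 + q ^ 2 + 1) :=
          one_le_padicValNat_of_dvd hF0 h3
        rcases Nat.eq_zero_or_pos (bb p) with h0 | h0
        · rw [h0, pow_zero, one_mul]
          have h5 := (Nat.pow_le_pow_right h1.pos hle).trans (huge p h1 h0)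
          calc p ^ padicValNat p (q ^ 4 + q ^ 2 + 1) ≤ uu q n p := h5
            _ = uu q n p ^ 1 := (pow_one _).symm
            _ ≤ uu q n p ^ 4 := Nat.pow_le_pow_right (hupos p h1) (by norm_num)
        · have hune : uu q n p ≠ 1 := by
            intro hu1
            have hg1 := hgg p h1
            rw [hu1, mul_one] at hg1
            have hLB0 := LB0 h1 h2 h0 hg1 (by omega)
            have hτ : padicValNat p (q ^ 4 + q ^ 2 + 1) = 1 := by
              by_contra hne
              have h6 : 2 ≤ padicValNat p (q ^ 4 + q ^ 2 + 1) := by omega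
              exact hLB0 ((pow_dvd_pow p h6).trans pow_padicValNat_dvd)
            have h7 := LB (K := 3 * L) (c := padicValNat p W) (t := m.factorization p) (m := m) h1
              h2 hq5 h3 h0 hg1 (h2a p h1 (by omega))
              (by rw [hv2 p hp, hτ, pow_add, pow_one]; exact Nat.mul_le_mul_left _ (hKle p))
              (by
                have h8 := hum p (mem_union_right _ hp)
                rw [hu1, one_mul] at h8
                exact h8)
            exact hX h7
          have h5 := LA h1 h2 hτ1 pow_padicValNat_dvd hle (hgg p h1) (huodd p h1 (by omega)) hune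
          calc p ^ padicValNat p (q ^ 4 + q ^ 2 + 1) ≤ 16 * uu q n p ^ 4 := h5
            _ = (2 ^ 1 * uu q n p) ^ 4 := by ring
            _ ≤ (2 ^ bb p * uu q n p) ^ 4 := by gcongr <;> omega
      -- `∏ 2 ^ b ≤ 2 ^ k`
      have hsum : ∏ p ∈ S1 ∪ S2, 2 ^ bb p ≤ 2 ^ k := by
        rw [Finset.prod_pow_eq_pow_sum]
        apply Nat.pow_le_pow_right (by norm_num)
        have h1 : ∏ p ∈ S1 ∪ S2, sigma 1 (p ^ (n ^ 2).factorization p) ∣ q ^ k * m := by
          rw [← hm, isMultiplicative_sigma.multiplicative_factorization (sigma 1) hN0]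
          unfold Finsupp.prod
          rw [Nat.support_factorization]
          exact prod_dvd_prod_of_subset _ _ _ hTsub
        have h2 : ∏ p ∈ S1 ∪ S2, q ^ bb p ∣ q ^ k * m := by
          refine Dvd.dvd.trans ?_ h1
          apply Finset.prod_dvd_prod_of_dvd
          intro p _
          exact Nat.ordProj_dvd _ q
        rw [Finset.prod_pow_eq_pow_sum] at h2
        have h3 : Nat.Coprime (q ^ (∑ p ∈ S1 ∪ S2, bb p)) m :=
          ((Nat.Prime.coprime_iff_not_dvd hq).2 hqm).pow_left _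
        exact (Nat.pow_dvd_pow_iff_le_right hq.one_lt).1 (h3.dvd_of_dvd_mul_right h2)
      have hprod : A1 ^ 4 * A2 ≤ (2 ^ k * m) ^ 4 := by
        have h1 : A1 ^ 4 ≤ ∏ p ∈ S1, (2 ^ bb p * uu q n p) ^ 4 := by
          rw [hA1, ← Finset.prod_pow]
          exact Finset.prod_le_prod' fun p hp => Nat.pow_le_pow_left (hm1 p hp) 4
        have h2 : A2 ≤ ∏ p ∈ S2, (2 ^ bb p * uu q n p) ^ 4 := Finset.prod_le_prod' hm2
        calc A1 ^ 4 * A2 ≤ (∏ p ∈ S1, (2 ^ bb p * uu q n p) ^ 4) *
              ∏ p ∈ S2, (2 ^ bb p * uu q n p) ^ 4 := Nat.mul_le_mul h1 h2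
          _ = ∏ p ∈ S1 ∪ S2, (2 ^ bb p * uu q n p) ^ 4 := (Finset.prod_union hdisj).symm
          _ = ((∏ p ∈ S1 ∪ S2, 2 ^ bb p) * (∏ p ∈ S1 ∪ S2, uu q n p)) ^ 4 := by
              rw [Finset.prod_pow, Finset.prod_mul_distrib]
          _ ≤ (2 ^ k * m) ^ 4 := by
              apply Nat.pow_le_pow_left
              apply Nat.mul_le_mul hsum
              exact Nat.le_of_dvd (Nat.pos_of_ne_zero hm0) (produ_dvd hq hn0 hm _ hTsub)
      calc q ^ 8 ≤ (q + 1) ^ 4 * (q ^ 4 + q ^ 2 + 1) := by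
            calc q ^ 8 = q ^ 4 * q ^ 4 := by ring
              _ ≤ (q + 1) ^ 4 * (q ^ 4 + q ^ 2 + 1) := by
                  apply Nat.mul_le_mul
                  · exact Nat.pow_le_pow_left (by omega) 4
                  · omega
        _ ≤ (2 * A1) ^ 4 * (3 * A2) := by
            rw [hq1.symm]
            exact Nat.mul_le_mul_left _ hq2
        _ = 48 * (A1 ^ 4 * A2) := by ring
        _ ≤ 48 * (2 ^ k * m) ^ 4 := Nat.mul_le_mul_left _ hprod
  -- `q ^ k * m < 2 * n ^ 2`
  have hlt : q ^ k * m < 2 * n ^ 2 := by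
    have h1 : q ^ k < W := by
      have h2 := geo hq k
      rw [← hWdef] at h2
      have hq1 := hq.one_lt
      by_contra hcon
      push Not at hcon
      have h3 : W * (q - 1) ≤ q ^ k * (q - 1) := Nat.mul_le_mul_right _ hcon
      have h4 : q ^ k * (q - 1) + q ^ k = q ^ (k + 1) := by
        rw [pow_succ]
        have h5 : q - 1 + 1 = q := by omega
        calc q ^ k * (q - 1) + q ^ k = q ^ k * (q - 1 + 1) := by ring
          _ = q ^ k * q := by rw [h5]
      have h6 : 1 < q ^ k := one_lt_pow₀ hq1 (by omega)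
      omega
    rw [← hW]
    exact Nat.mul_lt_mul_of_pos_right h1 (Nat.pos_of_ne_zero hm0)
  have h8 : (q ^ k * m) ^ 4 < (2 * n ^ 2) ^ 4 := Nat.pow_lt_pow_left hlt (by norm_num)
  have h9 : (q ^ (k + 2)) ^ 4 < (6 * 2 ^ k * n ^ 2) ^ 4 := by
    calc (q ^ (k + 2)) ^ 4 = (q ^ k) ^ 4 * q ^ 8 := by
          rw [pow_add]; ring
      _ ≤ (q ^ k) ^ 4 * (48 * (2 ^ k * m) ^ 4) := Nat.mul_le_mul_left _ hmain
      _ = 48 * (2 ^ k) ^ 4 * (q ^ k * m) ^ 4 := by ring
      _ < 48 * (2 ^ k) ^ 4 * (2 * n ^ 2) ^ 4 :=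
          Nat.mul_lt_mul_of_pos_left h8 (by positivity)
      _ = 768 * (2 ^ k * n ^ 2) ^ 4 := by ring
      _ ≤ 1296 * (2 ^ k * n ^ 2) ^ 4 := Nat.mul_le_mul_right _ (by norm_num)
      _ = (6 * 2 ^ k * n ^ 2) ^ 4 := by ring
  exact lt_of_pow_lt_pow_left₀ 4 (Nat.zero_le _) h9

end Pool.Agent.B17
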